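import Pool.Agent.N984.DI.Stm

set_option autoImplicit false

/-! # DI, OPC: the operator inequality in C*-algebras -/

namespace Pool.Agent.N999.DI

open Pool.Agent.N984.DI

section

variable {B : Type} [CStarAlgebra B] [PartialOrder B] [StarOrderedRing B]

lemma rr {a : B} (ha : IsStrictlyPositive a) (x y : ℝ) : (a ^ x) ^ y = a ^ (x * y) := by
  rcases eq_or_ne x 0 with rfl | hx
  · rw [CFC.rpow_zero a ha.nonneg, CFC.one_rpow, zero_mul, CFC.rpow_zero a ha.nonneg]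
  · exact CFC.rpow_rpow a x y hx ha

lemma ra {a : B} (ha : IsStrictlyPositive a) (x y : ℝ) : a ^ x * a ^ y = a ^ (x + y) :=
  (CFC.rpow_add ha.isUnit).symm

lemma cj {a c : B} (ha : IsStrictlyPositive a) (hc : IsStrictlyPositive c) :
    IsStrictlyPositive (c * a * c) :=
  IsStrictlyPositive.iff_of_unital.2 ⟨conjugate_nonneg_of_nonneg ha.nonneg hc.nonneg,
    (hc.isUnit.mul ha.isUnit).mul hc.isUnit⟩

lemma sq2 {a : B} (ha : IsStrictlyPositive a) : a * a = a ^ (2 : ℝ) := by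
  have h1 := ra ha 1 1
  rw [CFC.rpow_one a ha.nonneg] at h1
  rw [h1]
  norm_num

/-- three powers -/
lemma r3 {a : B} (ha : IsStrictlyPositive a) (x y z : ℝ) : a ^ x * a ^ y * a ^ z = a ^ (x + y + z) := by
  rw [ra ha, ra ha]

lemma core {b J : B} (hb : IsStrictlyPositive b) (hJ : IsStrictlyPositive J) {r : ℝ} (h0 : 0 ≤ r)
    (h : b * J ^ r * b ≤ J) : b * b ≤ J ^ (1 - r) := by
  have hr : 0 < 1 + r := by linarith
  have hJ1 : J ^ (1 : ℝ) = J := CFC.rpow_one J hJ.nonneg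
  have hP : IsStrictlyPositive (J ^ (r / 2)) := IsStrictlyPositive.rpow J (r / 2) hJ
  obtain ⟨C, hCd⟩ : ∃ C : B, C = J ^ (r / 2) * b * J ^ (r / 2) := ⟨_, rfl⟩
  have hC : IsStrictlyPositive C := hCd ▸ cj hb hP
  have hC1 : C ^ (1 : ℝ) = C := CFC.rpow_one C hC.nonneg
  -- the square of C
  have e1 : C * C = J ^ (r / 2) * (b * J ^ r * b) * J ^ (r / 2) := by
    have e2 : J ^ (r / 2) * J ^ (r / 2) = J ^ r := by rw [ra hJ]; congr 1; ring
    rw [hCd, ← e2]
    simp only [mul_assoc]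
  have e3 : J ^ (r / 2) * J * J ^ (r / 2) = J ^ (1 + r) := by
    calc J ^ (r / 2) * J * J ^ (r / 2) = J ^ (r / 2) * J ^ (1 : ℝ) * J ^ (r / 2) := by rw [hJ1]
      _ = J ^ (1 + r) := by rw [r3 hJ]; congr 1; ring
  have hC2 : C * C ≤ J ^ (1 + r) := by
    rw [e1, ← e3]
    exact conjugate_le_conjugate_of_nonneg h hP.nonneg
  rw [sq2 hC] at hC2
  -- negative powers
  have h2 : C ^ (2 * (r / (1 + r))) ≤ J ^ r := by
    have h3 := CFC.rpow_le_rpow (p := r / (1 + r)) ⟨by positivity, by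
      rw [div_le_one hr]; linarith⟩ hC2
    rw [rr hC, rr hJ] at h3
    have h4 : (1 + r) * (r / (1 + r)) = r := by field_simp
    rwa [h4] at h3
  have h5 : J ^ (-r) ≤ C ^ (-(2 * (r / (1 + r)))) := by
    have h6 := CStarAlgebra.rpow_neg_one_le_rpow_neg_one h2 (IsStrictlyPositive.rpow C _ hC)
    rw [rr hC, rr hJ] at h6
    have h7 : r * (-1) = -r := by ring
    have h8 : 2 * (r / (1 + r)) * (-1) = -(2 * (r / (1 + r))) := by ring
    rwa [h7, h8] at h6
  have h9 : C * J ^ (-r) * C ≤ C ^ (2 * (1 / (1 + r))) := by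
    refine (conjugate_le_conjugate_of_nonneg h5 hC.nonneg).trans_eq ?_
    calc C * C ^ (-(2 * (r / (1 + r)))) * C =
        C ^ (1 : ℝ) * C ^ (-(2 * (r / (1 + r)))) * C ^ (1 : ℝ) := by rw [hC1]
      _ = C ^ (2 * (1 / (1 + r))) := by
          rw [r3 hC]
          congr 1
          field_simp
          ring
  have h10 : C ^ (2 * (1 / (1 + r))) ≤ J := by
    have h3 := CFC.rpow_le_rpow (p := 1 / (1 + r)) ⟨by positivity, by
      rw [div_le_one hr]; linarith⟩ hC2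
    rw [rr hC, rr hJ] at h3
    have h4 : (1 + r) * (1 / (1 + r)) = 1 := by field_simp
    rwa [h4, hJ1] at h3
  have e4 : C * J ^ (-r) * C = J ^ (r / 2) * (b * b) * J ^ (r / 2) := by
    have e5 : J ^ (r / 2) * (J ^ (-r) * J ^ (r / 2)) = 1 := by
      rw [← mul_assoc, r3 hJ]
      have : r / 2 + -r + r / 2 = 0 := by ring
      rw [this, CFC.rpow_zero J hJ.nonneg]
    calc C * J ^ (-r) * C =
        J ^ (r / 2) * (b * (J ^ (r / 2) * (J ^ (-r) * J ^ (r / 2))) * b) * J ^ (r / 2) := by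
          rw [hCd]
          simp only [mul_assoc]
      _ = _ := by rw [e5, mul_one]
  have h11 : J ^ (r / 2) * (b * b) * J ^ (r / 2) ≤ J := by
    rw [← e4]
    exact h9.trans h10
  have hQ : IsStrictlyPositive (J ^ (-(r / 2))) := IsStrictlyPositive.rpow J _ hJ
  have h12 := conjugate_le_conjugate_of_nonneg h11 hQ.nonneg
  have e6 : J ^ (-(r / 2)) * (J ^ (r / 2) * (b * b) * J ^ (r / 2)) * J ^ (-(r / 2)) = b * b := by
    have e7 : J ^ (-(r / 2)) * J ^ (r / 2) = 1 := CFC.rpow_neg_mul_rpow _ hJ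
    have e8 : J ^ (r / 2) * J ^ (-(r / 2)) = 1 := CFC.rpow_mul_rpow_neg _ hJ
    calc J ^ (-(r / 2)) * (J ^ (r / 2) * (b * b) * J ^ (r / 2)) * J ^ (-(r / 2)) =
        (J ^ (-(r / 2)) * J ^ (r / 2)) * (b * b) * (J ^ (r / 2) * J ^ (-(r / 2))) := by
          simp only [mul_assoc]
      _ = _ := by rw [e7, e8, one_mul, mul_one]
  have e9 : J ^ (-(r / 2)) * J * J ^ (-(r / 2)) = J ^ (1 - r) := by
    calc J ^ (-(r / 2)) * J * J ^ (-(r / 2)) = J ^ (-(r / 2)) * J ^ (1 : ℝ) * J ^ (-(r / 2)) := by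
          rw [hJ1]
      _ = J ^ (1 - r) := by rw [r3 hJ]; congr 1; ring
  rwa [e6, e9] at h12

end

theorem t_OPC : OPC := by
  intro B _ _ _ a b ha hb p hp0 hp2 h
  have hS : IsStrictlyPositive (a * a) := by
    rw [sq2 ha]
    exact IsStrictlyPositive.rpow a _ ha
  have hJ : IsStrictlyPositive (b * (a * a) * b) := cj hS hb
  have h1 : b * (b * (a * a) * b) ^ (p / 2) * b ≤ b * (a * a) * b :=
    conjugate_le_conjugate_of_nonneg h hb.nonneg
  have h2 := core hb hJ (r := p / 2) (by linarith) h1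
  have h3 := CFC.rpow_le_rpow (p := p / 2) ⟨by linarith, by linarith⟩ h2
  have h4 := CFC.rpow_le_rpow (p := 1 - p / 2) ⟨by linarith, by linarith⟩ h
  rw [sq2 hb, rr hb, rr hJ] at h3
  rw [sq2 ha] at h4
  rw [sq2 ha] at hJ h3
  rw [rr hJ, rr ha] at h4
  have e1 : 2 * (p / 2) = p := by ring
  have e2 : (1 - p / 2) * (p / 2) = p / 2 * (1 - p / 2) := by ring
  have e3 : 2 * (1 - p / 2) = 2 - p := by ring
  rw [e1, e2] at h3
  rw [e3] at h4
  exact h3.trans h4

end Pool.Agent.N999.DI
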